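import Pool.Agent.Helper14.LE.Stmts2

/-!
# Module MMI of the Lane-Emden project: good minimisers
-/

open MeasureTheory Set Filter Topology InnerProductSpace

noncomputable section

namespace LEP.MMI

theorem wi_sub_wo {a b a' b' : Fin 2 → ℝ} (h : AngData a b a' b') {L : ℝ} (hL : 16 ≤ L)
    (i : Fin 2) : Wi a' b' L i ⊆ Wo a b L i := by
  intro z hz
  obtain ⟨h1, h2, h3⟩ := hz
  refine ⟨⟨(h.h2 i).le.trans h1.1, h1.2.trans (h.h4 i).le⟩, ?_, ?_⟩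
  · refine le_trans ?_ h2
    apply Real.rpow_le_rpow_of_exponent_le (by linarith)
    linarith
  · refine h3.trans ?_
    apply Real.rpow_le_rpow_of_exponent_le (by linarith)
    linarith

theorem psi_pos {z : ℂ} (hz : z ∈ Qd) : 0 < psi z := by
  unfold psi
  have h0 : z ≠ 0 := by
    rintro rfl
    exact lt_irrefl _ hz.1
  have := norm_pos_iff.mpr h0
  exact div_pos (mul_pos hz.1 hz.2) this

theorem psi_cont {W : Set ℂ} (hW : W ⊆ Qd) : ContinuousOn psi W := by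
  intro z hz
  have h0 : z ≠ 0 := by
    rintro rfl
    exact lt_irrefl _ (hW hz).1
  unfold psi
  apply ContinuousAt.continuousWithinAt
  refine ContinuousAt.div ?_ continuous_norm.continuousAt (norm_ne_zero_iff.mpr h0)
  exact (Complex.continuous_re.continuousAt).mul Complex.continuous_im.continuousAt

/-- the pointwise bound of the eighth power -/
theorem pow8 (A x y : ℝ) (α β : ℝ) (hα : |α| ≤ A) (hβ : |β| ≤ A) :
    (α * x - β * y) ^ 8 ≤ A ^ 8 * 2 ^ 7 * (x ^ 8 + y ^ 8) := by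
  have hA : 0 ≤ A := (abs_nonneg _).trans hα
  have h1 : |α * x - β * y| ≤ A * (|x| + |y|) := by
    calc |α * x - β * y| ≤ |α * x| + |β * y| := abs_sub _ _
      _ = |α| * |x| + |β| * |y| := by rw [abs_mul, abs_mul]
      _ ≤ A * |x| + A * |y| := add_le_add (mul_le_mul_of_nonneg_right hα (abs_nonneg _))
          (mul_le_mul_of_nonneg_right hβ (abs_nonneg _))
      _ = _ := by ring
  have h2 : (α * x - β * y) ^ 8 = |α * x - β * y| ^ 8 := (Even.pow_abs (by decide) _).symm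
  have h3 : (|x| + |y|) ^ 8 ≤ 2 ^ 7 * (|x| ^ 8 + |y| ^ 8) := by
    have := add_pow_le (abs_nonneg x) (abs_nonneg y) 8
    simpa using this
  rw [h2]
  calc |α * x - β * y| ^ 8 ≤ (A * (|x| + |y|)) ^ 8 :=
        pow_le_pow_left₀ (abs_nonneg _) h1 8
    _ = A ^ 8 * (|x| + |y|) ^ 8 := by ring
    _ ≤ A ^ 8 * (2 ^ 7 * (|x| ^ 8 + |y| ^ 8)) := mul_le_mul_of_nonneg_left h3 (by positivity)
    _ = A ^ 8 * 2 ^ 7 * (x ^ 8 + y ^ 8) := by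
        rw [Even.pow_abs (by decide), Even.pow_abs (by decide)]; ring

/-- MMI -/
theorem st_MMI (hW2 : ST_W2) (hW3 : ST_W3) (hTWO : ST_TWO) (hKAP : ST_KAP) (hT2 : ST_T2)
    (hGEO : ST_GEO) (hABSD : ST_ABSD) : ST_MMI := by
  intro a b a' b' hAng
  obtain ⟨ε, hε, hW3'⟩ := hW3 a b a' b' hAng
  have hW2' := hW2 a b a' b' hAng ε hε
  obtain ⟨L, ⟨hL2, hL3⟩, hL⟩ := ((hW2'.and hW3').and (eventually_ge_atTop (16 : ℝ))).exists
  obtain ⟨n, ⟨hsub, hdet, x1o, hx1o, x2o, hx2o, hco, hgap⟩, hout⟩ := (hL2.and hL3).exists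
  refine ⟨L, n, hL, hsub, ?_⟩
  have hRv : ∀ i, 1 ≤ RL L i := by
    intro i
    fin_cases i
    · show 1 ≤ L ^ (7 : ℝ)
      exact Real.one_le_rpow (by linarith) (by norm_num)
    · show 1 ≤ L ^ (2 : ℝ)
      exact Real.one_le_rpow (by linarith) (by norm_num)
  have hprof : Prof (Rn (RL L) n) := (hGEO.2 (RL L) hRv).2.1 n
  set R := Rn (RL L) n with hR
  set D := Ddom R with hD
  have hDQ : D ⊆ Qd := fun z hz => hz.2
  obtain ⟨kMem, kInner, kTD, kCont, kSM, kInt⟩ := hKAP R hprof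
  obtain ⟨t1, ⟨C8, t2⟩, t3, t4, t5, t6, t7⟩ := hT2 R hprof
  have habs := hABSD R hprof a b hAng.h1 (fun i => (hAng.h2 i).trans ((hAng.h3 i).trans (hAng.h4 i)))
    hAng.h5 L (by linarith) hsub
  -- the cross terms
  have hcross : ∀ x ∈ D, ∀ y ∈ D, 0 ≤ Gt D x y := by
    intro x hx y hy
    exact div_nonneg (t5 x hx y hy).1 (mul_pos (psi_pos (hDQ hx)) (psi_pos (hDQ hy))).le
  -- the determinant
  have hdetpos : ∀ x ∈ Wo a b L 0, ∀ y ∈ Wo a b L 1,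
      0 < ⟪kap D x, kap D x⟫_ℝ * ⟪kap D y, kap D y⟫_ℝ - ⟪kap D x, kap D y⟫_ℝ ^ 2 := by
    intro x hx y hy
    rw [kInner x (hsub 0 hx) x (hsub 0 hx), kInner y (hsub 1 hy) y (hsub 1 hy),
      kInner x (hsub 0 hx) y (hsub 1 hy)]
    have := hdet x hx y hy
    linarith
  -- coefficients
  let al1 : ℂ × ℂ → ℝ := fun q =>
    (⟪kap D q.1, kap D q.1⟫_ℝ * ⟪kap D q.2, kap D q.2⟫_ℝ - ⟪kap D q.1, kap D q.2⟫_ℝ ^ 2)⁻¹ *
      (⟪kap D q.2, kap D q.2⟫_ℝ + ⟪kap D q.1, kap D q.2⟫_ℝ) * (psi q.1)⁻¹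
  let al2 : ℂ × ℂ → ℝ := fun q =>
    (⟪kap D q.1, kap D q.1⟫_ℝ * ⟪kap D q.2, kap D q.2⟫_ℝ - ⟪kap D q.1, kap D q.2⟫_ℝ ^ 2)⁻¹ *
      (⟪kap D q.1, kap D q.1⟫_ℝ + ⟪kap D q.1, kap D q.2⟫_ℝ) * (psi q.2)⁻¹
  have hcomp : IsCompact (Wo a b L 0 ×ˢ Wo a b L 1) := habs.c1.prod habs.c2
  have hk1 : ContinuousOn (fun q : ℂ × ℂ => kap D q.1) (Wo a b L 0 ×ˢ Wo a b L 1) :=
    habs.k1.comp continuousOn_fst (fun q hq => hq.1)
  have hk2 : ContinuousOn (fun q : ℂ × ℂ => kap D q.2) (Wo a b L 0 ×ˢ Wo a b L 1) :=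
    habs.k2.comp continuousOn_snd (fun q hq => hq.2)
  have hp1 : ContinuousOn (fun q : ℂ × ℂ => psi q.1) (Wo a b L 0 ×ˢ Wo a b L 1) :=
    (psi_cont ((hsub 0).trans hDQ)).comp continuousOn_fst (fun q hq => hq.1)
  have hp2 : ContinuousOn (fun q : ℂ × ℂ => psi q.2) (Wo a b L 0 ×ˢ Wo a b L 1) :=
    (psi_cont ((hsub 1).trans hDQ)).comp continuousOn_snd (fun q hq => hq.2)
  have hdc : ContinuousOn (fun q : ℂ × ℂ => ⟪kap D q.1, kap D q.1⟫_ℝ * ⟪kap D q.2, kap D q.2⟫_ℝ -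
      ⟪kap D q.1, kap D q.2⟫_ℝ ^ 2) (Wo a b L 0 ×ˢ Wo a b L 1) :=
    ((hk1.inner hk1).mul (hk2.inner hk2)).sub ((hk1.inner hk2).pow 2)
  have hal1 : ContinuousOn al1 (Wo a b L 0 ×ˢ Wo a b L 1) := by
    refine ((hdc.inv₀ ?_).mul ((hk2.inner hk2).add (hk1.inner hk2))).mul (hp1.inv₀ ?_)
    · intro q hq
      exact (hdetpos q.1 hq.1 q.2 hq.2).ne'
    · intro q hq
      exact (psi_pos (hDQ (hsub 0 hq.1))).ne'
  have hal2 : ContinuousOn al2 (Wo a b L 0 ×ˢ Wo a b L 1) := by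
    refine ((hdc.inv₀ ?_).mul ((hk1.inner hk1).add (hk1.inner hk2))).mul (hp2.inv₀ ?_)
    · intro q hq
      exact (hdetpos q.1 hq.1 q.2 hq.2).ne'
    · intro q hq
      exact (psi_pos (hDQ (hsub 1 hq.2))).ne'
  obtain ⟨A1, hA1⟩ := hcomp.exists_bound_of_continuousOn hal1
  obtain ⟨A2, hA2⟩ := hcomp.exists_bound_of_continuousOn hal2
  refine ⟨(max A1 A2) ^ 8 * 2 ^ 7 * (C8 + C8), ?_⟩
  intro v hv
  obtain ⟨⟨⟨x1, hx1, hv1⟩, ⟨x2, hx2, hv2⟩⟩, hmin⟩ := hv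
  -- two point minimiser at a pair of points
  have two : ∀ y1 ∈ Wo a b L 0, ∀ y2 ∈ Wo a b L 1, ∃ v0 : Lp ℝ 2 (volume.restrict D),
      v0 = (⟪kap D y1, kap D y1⟫_ℝ * ⟪kap D y2, kap D y2⟫_ℝ - ⟪kap D y1, kap D y2⟫_ℝ ^ 2)⁻¹ •
        ((⟪kap D y2, kap D y2⟫_ℝ + ⟪kap D y1, kap D y2⟫_ℝ) • kap D y1 -
          (⟪kap D y1, kap D y1⟫_ℝ + ⟪kap D y1, kap D y2⟫_ℝ) • kap D y2) ∧
      v0 ∈ feas (kap D) (Wo a b L 0) (Wo a b L 1) ∧ ‖v0‖ ^ 2 / 2 = cD D y1 y2 ∧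
      ∀ v : Lp ℝ 2 (volume.restrict D), 1 ≤ ⟪kap D y1, v⟫_ℝ → ⟪kap D y2, v⟫_ℝ ≤ -1 →
        cD D y1 y2 ≤ ‖v‖ ^ 2 / 2 ∧ (‖v‖ ^ 2 / 2 ≤ cD D y1 y2 → v = v0) := by
    intro y1 hy1 y2 hy2
    have e11 := kInner y1 (hsub 0 hy1) y1 (hsub 0 hy1)
    have e22 := kInner y2 (hsub 1 hy2) y2 (hsub 1 hy2)
    have e12 := kInner y1 (hsub 0 hy1) y2 (hsub 1 hy2)
    obtain ⟨v0, h1, h2, h3, h4, h5⟩ := hTWO _ (kap D y1) (kap D y2)
      (by rw [e12]; exact hcross _ (hsub 0 hy1) _ (hsub 1 hy2))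
      (by have := hdetpos y1 hy1 y2 hy2; linarith)
    have hc : cE ⟪kap D y1, kap D y1⟫_ℝ ⟪kap D y2, kap D y2⟫_ℝ ⟪kap D y1, kap D y2⟫_ℝ =
        cD D y1 y2 := by
      rw [e11, e22, e12]; rfl
    rw [hc] at h4 h5
    exact ⟨v0, h1, ⟨⟨y1, hy1, h2.ge⟩, ⟨y2, hy2, h3.le⟩⟩, h4, h5⟩
  have hx1o' : x1o ∈ Wo a b L 0 := wi_sub_wo hAng hL 0 hx1o
  have hx2o' : x2o ∈ Wo a b L 1 := wi_sub_wo hAng hL 1 hx2o
  obtain ⟨w0, _, hw0, hw0c, _⟩ := two x1o hx1o' x2o hx2o'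
  obtain ⟨u0, hu0, hu0f, hu0c, hu0m⟩ := two x1 hx1 x2 hx2
  have hle : cD D x1 x2 ≤ cD D x1o x2o := by
    have h1 := (hu0m v hv1 hv2).1
    have h2 := hmin w0 hw0
    have h3 : ‖v‖ ^ 2 ≤ ‖w0‖ ^ 2 := pow_le_pow_left₀ (norm_nonneg _) h2 2
    linarith
  have hvu : v = u0 := by
    apply (hu0m v hv1 hv2).2
    have h2 := hmin u0 hu0f
    have h3 : ‖v‖ ^ 2 ≤ ‖u0‖ ^ 2 := pow_le_pow_left₀ (norm_nonneg _) h2 2
    linarith
  have hx1i : x1 ∈ Wi a' b' L 0 := by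
    by_contra h
    have := hgap x1 hx1 x2 hx2 (Or.inl h)
    linarith
  have hx2i : x2 ∈ Wi a' b' L 1 := by
    by_contra h
    have := hgap x1 hx1 x2 hx2 (Or.inr h)
    linarith
  obtain ⟨o1, o2, o3, o4⟩ := hout x1 hx1i x2 hx2i (hle.trans hco)
  have hxD1 := hsub 0 hx1
  have hxD2 := hsub 1 hx2
  have hval : ∀ y ∈ D, ⟪kap D y, v⟫_ℝ = Up D x1 x2 y := by
    intro y hy
    rw [hvu, hu0, inner_smul_right, inner_sub_right, inner_smul_right, inner_smul_right,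
      kInner x1 hxD1 x1 hxD1, kInner x2 hxD2 x2 hxD2, kInner x1 hxD1 x2 hxD2,
      kInner y hy x1 hxD1, kInner y hy x2 hxD2]
    unfold Up
    rw [div_eq_inv_mul]
  refine ⟨?_, ?_, ?_, ?_, ?_⟩
  · intro y hy h4 h5 h6
    rw [hval y hy]
    exact o1 y hy h4 h5 h6
  · intro y hy h4
    rw [hval y hy]
    exact o2 y hy h4
  · intro y hy
    rw [hval y (hsub 0 hy)]
    exact o3 y hy
  · intro y hy
    rw [hval y (hsub 1 hy)]
    exact o4 y hy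
  · -- eighth powers
    have hq : ((x1, x2) : ℂ × ℂ) ∈ Wo a b L 0 ×ˢ Wo a b L 1 := ⟨hx1, hx2⟩
    have hb1 : |al1 (x1, x2)| ≤ max A1 A2 := (hA1 _ hq).trans (le_max_left _ _)
    have hb2 : |al2 (x1, x2)| ≤ max A1 A2 := (hA2 _ hq).trans (le_max_right _ _)
    have hk : ∀ x ∈ D, ∀ᵐ z ∂(volume.restrict D), (kap D x) z = (psi x)⁻¹ * gD D x z := by
      intro x hx
      have h : x ∈ D ∧ MemLp (gD D x) 2 (volume.restrict D) := ⟨hx, kMem x hx⟩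
      have e1 : kap D x = (psi x)⁻¹ • h.2.toLp := by
        unfold kap
        rw [dif_pos h]
      rw [e1]
      filter_upwards [Lp.coeFn_smul (psi x)⁻¹ (h.2.toLp), h.2.coeFn_toLp] with z h1 h2
      rw [h1, Pi.smul_apply, h2, smul_eq_mul]
    have hae : ∀ᵐ z ∂(volume.restrict D), v z = al1 (x1, x2) * gD D x1 z -
        al2 (x1, x2) * gD D x2 z := by
      rw [hvu, hu0]
      set c0 := (⟪kap D x1, kap D x1⟫_ℝ * ⟪kap D x2, kap D x2⟫_ℝ -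
        ⟪kap D x1, kap D x2⟫_ℝ ^ 2)⁻¹ with hc0
      set c1 := ⟪kap D x2, kap D x2⟫_ℝ + ⟪kap D x1, kap D x2⟫_ℝ with hc1
      set c2 := ⟪kap D x1, kap D x1⟫_ℝ + ⟪kap D x1, kap D x2⟫_ℝ with hc2
      filter_upwards [Lp.coeFn_smul c0 (c1 • kap D x1 - c2 • kap D x2),
        Lp.coeFn_sub (c1 • kap D x1) (c2 • kap D x2), Lp.coeFn_smul c1 (kap D x1),
        Lp.coeFn_smul c2 (kap D x2), hk x1 hxD1, hk x2 hxD2] with z h1 h2 h3 h4 h5 h6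
      rw [h1, Pi.smul_apply, h2, Pi.sub_apply, h3, h4, Pi.smul_apply, Pi.smul_apply, h5, h6]
      simp only [smul_eq_mul]
      have e1 : al1 (x1, x2) = c0 * c1 * (psi x1)⁻¹ := rfl
      have e2 : al2 (x1, x2) = c0 * c2 * (psi x2)⁻¹ := rfl
      rw [e1, e2]
      ring
    have hint : IntegrableOn (fun z => (max A1 A2) ^ 8 * 2 ^ 7 *
        ((gD D x1 z) ^ 8 + (gD D x2 z) ^ 8)) D :=
      (((t2 x1 hxD1).1.add (t2 x2 hxD2).1).const_mul _)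
    have hbd : ∀ᵐ z ∂(volume.restrict D), (v z) ^ 8 ≤ (max A1 A2) ^ 8 * 2 ^ 7 *
        ((gD D x1 z) ^ 8 + (gD D x2 z) ^ 8) := by
      filter_upwards [hae] with z hz
      rw [hz]
      exact pow8 _ _ _ _ _ hb1 hb2
    have hnn : ∀ z : ℂ, 0 ≤ (v z) ^ 8 := fun z => Even.pow_nonneg (by decide) _
    have hvi : IntegrableOn (fun z => (v z) ^ 8) D := by
      refine Integrable.mono' hint ((Lp.aestronglyMeasurable v).pow 8) ?_
      filter_upwards [hbd] with z hz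
      rw [Real.norm_of_nonneg (hnn z)]
      exact hz
    refine ⟨hvi, ?_⟩
    calc ∫ z in D, (v z) ^ 8 ≤ ∫ z in D, (max A1 A2) ^ 8 * 2 ^ 7 *
        ((gD D x1 z) ^ 8 + (gD D x2 z) ^ 8) := integral_mono_ae hvi hint hbd
      _ = (max A1 A2) ^ 8 * 2 ^ 7 * (∫ z in D, (gD D x1 z) ^ 8 + (gD D x2 z) ^ 8) := by
          rw [integral_const_mul]
      _ = (max A1 A2) ^ 8 * 2 ^ 7 * ((∫ z in D, (gD D x1 z) ^ 8) + ∫ z in D, (gD D x2 z) ^ 8) := by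
          rw [integral_add (t2 x1 hxD1).1 (t2 x2 hxD2).1]
      _ ≤ (max A1 A2) ^ 8 * 2 ^ 7 * (C8 + C8) := by
          apply mul_le_mul_of_nonneg_left (add_le_add (t2 x1 hxD1).2 (t2 x2 hxD2).2)
          have : 0 ≤ (max A1 A2) ^ 8 := Even.pow_nonneg (by decide) _
          positivity

end LEP.MMI
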